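import Pool.Agent.Q98.FR.Tool

set_option autoImplicit false

/-! Project FR of helper64: jobs BET, VAL (helper98). -/

open MeasureTheory Set Filter Topology
open scoped Real

namespace Pool.Agent.Q98.FR

open Pool.Agent.Q64.FR

theorem kk_facts (s : ℝ) (h0 : 0 < s) (h1 : s < 1) :
    IntegrableOn (fun q : ℝ => q ^ (-s) * (1 - q) ^ (s - 1)) (Ioo 0 1) ∧
      kk s = ProbabilityTheory.beta (1 - s) s := by
  have h2 := beta_real (1 - s) s (by linarith) h0
  rw [show (1 - s - 1) = -s by ring] at h2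
  exact h2

/-- `(1-y²)^(s-1) y^r` on `(0,1)` -/
theorem half_int (s r : ℝ) (h0 : 0 < s) (hr : -1 < r) :
    IntegrableOn (fun y : ℝ => (1 - y ^ 2) ^ (s - 1) * y ^ r) (Ioo 0 1) ∧
      2 * ∫ y in Ioo (0 : ℝ) 1, (1 - y ^ 2) ^ (s - 1) * y ^ r =
        ProbabilityTheory.beta ((1 + r) / 2) s := by
  have h2 := beta_real ((1 + r) / 2) s (by linarith) h0
  have h3 := cov_sq (fun q : ℝ => q ^ ((1 + r) / 2 - 1) * (1 - q) ^ (s - 1))
  have h4 : ∀ x ∈ Ioo (0 : ℝ) 1, 2 * x * ((x ^ 2) ^ ((1 + r) / 2 - 1) * (1 - x ^ 2) ^ (s - 1)) =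
      2 * ((1 - x ^ 2) ^ (s - 1) * x ^ r) := by
    intro x hx
    have e1 : (x ^ 2) ^ ((1 + r) / 2 - 1) = x ^ (r - 1) := by
      rw [← Real.rpow_natCast, ← Real.rpow_mul hx.1.le]
      congr 1
      push_cast
      ring
    rw [e1, Real.rpow_sub_one hx.1.ne']
    field_simp [hx.1.ne']
  have h5 : IntegrableOn (fun x : ℝ => 2 * ((1 - x ^ 2) ^ (s - 1) * x ^ r)) (Ioo 0 1) :=
    (h3.1.1 h2.1).congr_fun h4 measurableSet_Ioo
  constructor
  · have := h5.const_mul (1 / 2)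
    refine IntegrableOn.congr_fun this (fun x _ => ?_) measurableSet_Ioo
    show 1 / 2 * (2 * _) = _
    ring
  · rw [← h2.2, h3.2, setIntegral_congr_fun measurableSet_Ioo h4, integral_const_mul]

theorem bet_one (s : ℝ) (h1 : s < 1) :
    ProbabilityTheory.beta (2 - s) s = (1 - s) * ProbabilityTheory.beta (1 - s) s := by
  unfold ProbabilityTheory.beta
  rw [show (2 - s + s) = 2 by ring, show (1 - s + s) = 1 by ring, Real.Gamma_two, Real.Gamma_one,
    show (2 - s) = (1 - s) + 1 by ring, Real.Gamma_add_one (by linarith)]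
  ring

theorem t_BET : S_BET := by
  intro s h0 h1
  have h2 := kk_facts s h0 h1
  refine ⟨h2.1, ?_, ?_, ?_⟩
  · rw [h2.2]
    exact ProbabilityTheory.beta_pos (by linarith) h0
  · have h3 := (half_int s 0 h0 (by norm_num)).1
    simp only [Real.rpow_zero, mul_one] at h3
    refine (halves _ h3 ?_).1
    simpa using h3
  · have h3 := half_int s (3 - 2 * s) h0 (by linarith)
    have h4 : ∀ y ∈ Ioo (0 : ℝ) 1, (1 - y ^ 2) ^ (s - 1) * y ^ (3 - 2 * s) =
        (1 - y ^ 2) ^ (s - 1) * |y| ^ (3 - 2 * s) := by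
      intro y hy
      rw [abs_of_pos hy.1]
    have h5 : IntegrableOn (fun y : ℝ => (1 - y ^ 2) ^ (s - 1) * |y| ^ (3 - 2 * s)) (Ioo 0 1) :=
      h3.1.congr_fun h4 measurableSet_Ioo
    have h6 := (halves (fun y : ℝ => (1 - y ^ 2) ^ (s - 1) * |y| ^ (3 - 2 * s)) h5
      (by simpa using h5)).2
    rw [h6, h2.2, ← bet_one s h1]
    have h7 : ∀ y ∈ Ioo (0 : ℝ) 1, (1 - y ^ 2) ^ (s - 1) * |y| ^ (3 - 2 * s) +
        (1 - (-y) ^ 2) ^ (s - 1) * |(-y)| ^ (3 - 2 * s) =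
        2 * ((1 - y ^ 2) ^ (s - 1) * y ^ (3 - 2 * s)) := by
      intro y hy
      rw [abs_neg, neg_sq, abs_of_pos hy.1]
      ring
    rw [setIntegral_congr_fun measurableSet_Ioo h7, integral_const_mul, h3.2]
    congr 1
    ring

theorem t_VAL : S_VAL := by
  intro s x h0 h1 hx
  have hx1 : x ^ 2 < 1 := by rwa [sq_lt_one_iff_abs_lt_one]
  have hp : 0 < 1 - x ^ 2 := by linarith
  have habs := abs_lt.1 hx
  -- integrability on the halves
  have hw := (half_int s (1 - 2 * s) h0 (by linarith)).1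
  have hmeas : ∀ y : ℝ, Measurable (fun z : ℝ => (1 - z ^ 2) ^ (s - 1) * |z| ^ (1 - 2 * s) /
      (1 + y * z)) := by
    intro y
    fun_prop
  have hdom : ∀ y : ℝ, |y| < 1 → IntegrableOn (fun z : ℝ => (1 - z ^ 2) ^ (s - 1) *
      |z| ^ (1 - 2 * s) / (1 + y * z)) (Ioo 0 1) := by
    intro y hy
    have hy' := abs_lt.1 hy
    refine Integrable.mono' (hw.const_mul (1 / (1 - |y|))) (hmeas y).aestronglyMeasurable ?_
    refine (ae_restrict_iff' measurableSet_Ioo).2 (Eventually.of_forall fun z hz => ?_)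
    have hz0 := hz.1
    have hz1 := hz.2
    have e1 : 0 ≤ (1 - z ^ 2) ^ (s - 1) := Real.rpow_nonneg (by nlinarith) _
    have e2 : 0 ≤ z ^ (1 - 2 * s) := Real.rpow_nonneg hz0.le _
    have e3 : 1 - |y| ≤ 1 + y * z := by
      have : -|y| ≤ y * z := by
        have := neg_abs_le (y * z)
        rw [abs_mul, abs_of_pos hz0] at this
        nlinarith [abs_nonneg y]
      linarith
    have e4 : 0 < 1 - |y| := by linarith
    rw [abs_of_pos hz0, Real.norm_eq_abs, abs_div, abs_of_nonneg (mul_nonneg e1 e2),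
      abs_of_pos (by linarith), div_le_iff₀ (by linarith)]
    calc (1 - z ^ 2) ^ (s - 1) * z ^ (1 - 2 * s)
        = 1 / (1 - |y|) * ((1 - z ^ 2) ^ (s - 1) * z ^ (1 - 2 * s)) * (1 - |y|) := by
          field_simp
      _ ≤ _ := by
          apply mul_le_mul_of_nonneg_left e3
          positivity
  have hI1 := hdom x hx
  have hI2 : IntegrableOn (fun z : ℝ => (1 - (-z) ^ 2) ^ (s - 1) *
      |(-z)| ^ (1 - 2 * s) / (1 + x * (-z))) (Ioo 0 1) := by
    have := hdom (-x) (by rwa [abs_neg])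
    refine this.congr_fun (fun z _ => ?_) measurableSet_Ioo
    simp only [neg_sq, abs_neg]
    congr 1
    ring
  have hH := halves _ hI1 hI2
  refine ⟨hH.1, ?_⟩
  rw [hH.2]
  -- the two substitutions
  have hsq := (cov_sq (fun v : ℝ => v ^ (-s) * (1 - v) ^ (s - 1) / (1 - x ^ 2 * v))).2
  have h2 : ∀ z ∈ Ioo (0 : ℝ) 1, ((1 - z ^ 2) ^ (s - 1) * |z| ^ (1 - 2 * s) / (1 + x * z) +
      (1 - (-z) ^ 2) ^ (s - 1) * |(-z)| ^ (1 - 2 * s) / (1 + x * (-z))) =
      2 * z * ((z ^ 2) ^ (-s) * (1 - z ^ 2) ^ (s - 1) / (1 - x ^ 2 * z ^ 2)) := by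
    intro z hz
    have hz0 := hz.1
    have hz1 := hz.2
    have e1 : (z ^ 2) ^ (-s) = z ^ (1 - 2 * s) / z := by
      rw [← Real.rpow_sub_one hz0.ne', ← Real.rpow_natCast, ← Real.rpow_mul hz0.le]
      congr 1
      push_cast
      ring
    have e2 : 1 + x * z ≠ 0 := by nlinarith
    have e3 : 1 - x * z ≠ 0 := by nlinarith
    have e5 : 1 - x ^ 2 * z ^ 2 = (1 + x * z) * (1 - x * z) := by ring
    rw [e1, neg_sq, abs_neg, abs_of_pos hz0, e5, show 1 + x * (-z) = 1 - x * z by ring]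
    generalize (1 - z ^ 2) ^ (s - 1) = W
    generalize z ^ (1 - 2 * s) = P
    field_simp
    ring
  rw [setIntegral_congr_fun measurableSet_Ioo h2, ← hsq]
  have hD : ∀ q ∈ Ioo (0 : ℝ) 1, 0 < 1 - x ^ 2 + x ^ 2 * q := fun q hq => by
    have := mul_nonneg (sq_nonneg x) hq.1.le
    linarith
  have him : (fun q : ℝ => q / (1 - x ^ 2 + x ^ 2 * q)) '' Ioo 0 1 = Ioo 0 1 := by
    ext v
    constructor
    · rintro ⟨q, hq, rfl⟩
      have := hD q hq
      refine ⟨div_pos hq.1 this, ?_⟩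
      rw [div_lt_one this]
      nlinarith [hq.2]
    · intro hv
      have hv1 : 0 < 1 - x ^ 2 * v := by nlinarith [hv.1, hv.2, sq_nonneg x]
      refine ⟨v * (1 - x ^ 2) / (1 - x ^ 2 * v), ⟨?_, ?_⟩, ?_⟩
      · have := hv.1
        positivity
      · rw [div_lt_one hv1]
        nlinarith [hv.2]
      · have e5 : 1 - x ^ 2 + x ^ 2 * (v * (1 - x ^ 2) / (1 - x ^ 2 * v)) =
            (1 - x ^ 2) / (1 - x ^ 2 * v) := by
          field_simp
          ring
        show v * (1 - x ^ 2) / (1 - x ^ 2 * v) / (1 - x ^ 2 + x ^ 2 *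
          (v * (1 - x ^ 2) / (1 - x ^ 2 * v))) = v
        rw [e5, div_div_div_cancel_right₀ hv1.ne', mul_div_assoc, div_self hp.ne', mul_one]
  have hinj : InjOn (fun q : ℝ => q / (1 - x ^ 2 + x ^ 2 * q)) (Ioo 0 1) := by
    intro a ha b hb hab
    simp only at hab
    rw [div_eq_div_iff (hD a ha).ne' (hD b hb).ne'] at hab
    have : (1 - x ^ 2) * (a - b) = 0 := by linarith
    rcases mul_eq_zero.1 this with h | h
    · exact absurd h hp.ne'
    · linarith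
  have hder : ∀ q ∈ Ioo (0 : ℝ) 1, HasDerivAt (fun q : ℝ => q / (1 - x ^ 2 + x ^ 2 * q))
      ((1 - x ^ 2) / (1 - x ^ 2 + x ^ 2 * q) ^ 2) q := by
    intro q hq
    have e6 : HasDerivAt (fun q : ℝ => 1 - x ^ 2 + x ^ 2 * q) (x ^ 2) q := by
      simpa using ((hasDerivAt_id q).const_mul (x ^ 2)).const_add (1 - x ^ 2)
    have e7 := (hasDerivAt_id q).div e6 (hD q hq).ne'
    refine e7.congr_deriv ?_
    simp only [id]
    congr 1
    ring
  have hcov := (cov (fun q : ℝ => q / (1 - x ^ 2 + x ^ 2 * q))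
    (fun q => (1 - x ^ 2) / (1 - x ^ 2 + x ^ 2 * q) ^ 2)
    (fun v : ℝ => v ^ (-s) * (1 - v) ^ (s - 1) / (1 - x ^ 2 * v)) hder hinj him).2
  rw [hcov]
  have h3 : ∀ q ∈ Ioo (0 : ℝ) 1, |(1 - x ^ 2) / (1 - x ^ 2 + x ^ 2 * q) ^ 2| *
      ((q / (1 - x ^ 2 + x ^ 2 * q)) ^ (-s) * (1 - q / (1 - x ^ 2 + x ^ 2 * q)) ^ (s - 1) /
        (1 - x ^ 2 * (q / (1 - x ^ 2 + x ^ 2 * q)))) =
      (1 - x ^ 2) ^ (s - 1) * (q ^ (-s) * (1 - q) ^ (s - 1)) := by
    intro q hq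
    have hDq := hD q hq
    have e8 : 1 - q / (1 - x ^ 2 + x ^ 2 * q) = (1 - x ^ 2) * (1 - q) / (1 - x ^ 2 + x ^ 2 * q) := by
      rw [eq_div_iff hDq.ne', sub_mul, div_mul_cancel₀ _ hDq.ne']
      ring
    have e9 : 1 - x ^ 2 * (q / (1 - x ^ 2 + x ^ 2 * q)) = (1 - x ^ 2) / (1 - x ^ 2 + x ^ 2 * q) := by
      rw [eq_div_iff hDq.ne', sub_mul, mul_assoc, div_mul_cancel₀ _ hDq.ne']
      ring
    have hq1 : 0 < 1 - q := by linarith [hq.2]
    rw [abs_of_pos (by positivity), e8, e9, Real.div_rpow hq.1.le hDq.le,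
      Real.div_rpow (by positivity) hDq.le, Real.mul_rpow hp.le hq1.le]
    have e10 : (1 - x ^ 2 + x ^ 2 * q) ^ (-s) * (1 - x ^ 2 + x ^ 2 * q) ^ (s - 1) =
        (1 - x ^ 2 + x ^ 2 * q)⁻¹ := by
      rw [← Real.rpow_add hDq, ← Real.rpow_neg_one]
      congr 1
      ring
    have e11 : 0 < (1 - x ^ 2 + x ^ 2 * q) ^ (-s) := Real.rpow_pos_of_pos hDq _
    have e12 : 0 < (1 - x ^ 2 + x ^ 2 * q) ^ (s - 1) := Real.rpow_pos_of_pos hDq _
    have e13 : (1 - x ^ 2 + x ^ 2 * q) ^ (-s) * (1 - x ^ 2 + x ^ 2 * q) ^ (s - 1) *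
        (1 - x ^ 2 + x ^ 2 * q) = 1 := by
      rw [e10, inv_mul_cancel₀ hDq.ne']
    generalize (1 - x ^ 2) ^ (s - 1) = T
    generalize q ^ (-s) = Q
    generalize (1 - q) ^ (s - 1) = R
    generalize (1 - x ^ 2 + x ^ 2 * q) ^ (-s) = A at *
    generalize (1 - x ^ 2 + x ^ 2 * q) ^ (s - 1) = B at *
    generalize (1 - x ^ 2 + x ^ 2 * q) = D at *
    generalize (1 - x ^ 2) = P at *
    have e14 : P / D ^ 2 * (Q / A * (T * R / B) / (P / D)) = Q * T * R / (A * B * D) := by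
      field_simp
    rw [e14, e13, div_one]
    ring
  rw [setIntegral_congr_fun measurableSet_Ioo h3, integral_const_mul]
  rfl

end Pool.Agent.Q98.FR
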