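import Pool.Agent.Q98.FR.Tool

set_option autoImplicit false

/-! Project FR of helper64: job FUB (helper98). -/

open MeasureTheory Set Filter Topology
open scoped Real

namespace Pool.Agent.Q98.FR

open Pool.Agent.Q64.FR

theorem fub_inner (s r : ℝ) (hs : 1 / 2 < s) (hr : 0 < r) :
    IntegrableOn (fun h : ℝ => h ^ (-1 - 2 * s) * max (h - r) 0) (Ioi 0) ∧
      ∫ h in Ioi (0 : ℝ), h ^ (-1 - 2 * s) * max (h - r) 0 =
        (2 * s * (2 * s - 1))⁻¹ * r ^ (1 - 2 * s) := by
  have ha : (-2 * s) < -1 := by linarith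
  have hb : (-1 - 2 * s) < -1 := by linarith
  have i1 := integrableOn_Ioi_rpow_of_lt ha hr
  have i2 := integrableOn_Ioi_rpow_of_lt hb hr
  have e : ∀ h ∈ Ioi r, h ^ (-2 * s) - r * h ^ (-1 - 2 * s) = h ^ (-1 - 2 * s) * max (h - r) 0 := by
    intro h hh
    have hh0 : 0 < h := lt_trans hr hh
    rw [max_eq_left (by linarith [mem_Ioi.1 hh]), mul_sub]
    have : h ^ (-2 * s) = h ^ (-1 - 2 * s) * h := by
      rw [← Real.rpow_add_one hh0.ne']
      congr 1
      ring
    rw [this]
    ring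
  have i3 : IntegrableOn (fun h : ℝ => h ^ (-2 * s) - r * h ^ (-1 - 2 * s)) (Ioi r) :=
    i1.sub (i2.const_mul r)
  have i4 : IntegrableOn (fun h : ℝ => h ^ (-1 - 2 * s) * max (h - r) 0) (Ioi r) :=
    i3.congr_fun e measurableSet_Ioi
  have z : ∀ h ∈ Ioi (0 : ℝ) \ Ioi r, h ^ (-1 - 2 * s) * max (h - r) 0 = 0 := by
    intro h hh
    have : h ≤ r := not_lt.1 hh.2
    rw [max_eq_right (by linarith), mul_zero]
  have hsub : Ioi r ⊆ Ioi (0 : ℝ) := Ioi_subset_Ioi hr.le
  constructor
  · exact i4.of_forall_sdiff_eq_zero measurableSet_Ioi z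
  · rw [setIntegral_eq_of_subset_of_forall_sdiff_eq_zero measurableSet_Ioi hsub z,
      ← setIntegral_congr_fun measurableSet_Ioi e, integral_sub i1 (i2.const_mul r), integral_const_mul,
      integral_Ioi_rpow_of_lt ha hr, integral_Ioi_rpow_of_lt hb hr]
    have e1 : -2 * s + 1 = 1 - 2 * s := by ring
    have e2 : -1 - 2 * s + 1 = -2 * s := by ring
    have e3 : r * r ^ (-2 * s) = r ^ (1 - 2 * s) := by
      rw [← e1, Real.rpow_add_one hr.ne']
      ring
    rw [e1, e2]
    have h1 : (1 - 2 * s) ≠ 0 := by linarith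
    have h2 : (2 * s - 1) ≠ 0 := by linarith
    have h3 : s ≠ 0 := by linarith
    rw [← e3]
    have h4 : (2 * s - 1)⁻¹ = -(1 - 2 * s)⁻¹ := by
      rw [← inv_neg]
      congr 1
      ring
    rw [mul_inv, h4]
    field_simp
    ring

theorem t_FUB : S_FUB := by
  intro s x g hs0 hs1 hg hint
  set μ : Measure ℝ := volume.restrict (Ioi 0) with hμ
  set ν : Measure ℝ := volume.restrict (Ioo (-1) 1) with hν
  set F : ℝ → ℝ → ℝ := fun h y => h ^ (-1 - 2 * s) * (max (h - |y - x|) 0 * g y) with hF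
  have hFm : Measurable (fun p : ℝ × ℝ => F p.1 p.2) := by
    have : Measurable (fun p : ℝ × ℝ => g p.2) := hg.comp measurable_snd
    simp only [hF]
    fun_prop
  have hne : ∀ᵐ y ∂ν, y ≠ x := by
    rw [hν]
    apply ae_restrict_of_ae
    rw [ae_iff]
    simp
  have hinner : ∀ y, y ≠ x → Integrable (fun h => F h y) μ ∧
      ∫ h, F h y ∂μ = (2 * s * (2 * s - 1))⁻¹ * (g y * |x - y| ^ (1 - 2 * s)) ∧
      ∫ h, ‖F h y‖ ∂μ = (2 * s * (2 * s - 1))⁻¹ * ‖g y * |x - y| ^ (1 - 2 * s)‖ := by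
    intro y hy
    have hr : 0 < |y - x| := abs_pos.2 (sub_ne_zero.2 hy)
    obtain ⟨k1, k2⟩ := fub_inner s |y - x| hs0 hr
    have e0 : ∀ h, F h y = h ^ (-1 - 2 * s) * max (h - |y - x|) 0 * g y := fun h => by
      simp only [hF]; ring
    have e1 : ∀ h ∈ Ioi (0 : ℝ), ‖F h y‖ = h ^ (-1 - 2 * s) * max (h - |y - x|) 0 * |g y| := by
      intro h hh
      rw [e0, norm_mul, norm_mul, Real.norm_eq_abs, Real.norm_eq_abs, Real.norm_eq_abs,
        abs_of_nonneg (Real.rpow_nonneg (le_of_lt hh) _), abs_of_nonneg (le_max_right _ _)]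
    refine ⟨?_, ?_, ?_⟩
    · simp only [e0]
      exact k1.mul_const (g y)
    · simp only [e0]
      rw [integral_mul_const, hμ, k2, abs_sub_comm x y]
      ring
    · rw [hμ, setIntegral_congr_fun measurableSet_Ioi e1, integral_mul_const, k2, norm_mul,
        Real.norm_eq_abs, Real.norm_eq_abs, abs_sub_comm x y,
        abs_of_nonneg (Real.rpow_nonneg (abs_nonneg _) _)]
      ring
  have hprod : Integrable (Function.uncurry F) (μ.prod ν) := by
    refine (integrable_prod_iff' (f := Function.uncurry F) hFm.aestronglyMeasurable).2 ?_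
    constructor
    · filter_upwards [hne] with y hy
      exact (hinner y hy).1
    · have h1 : Integrable (fun y => (2 * s * (2 * s - 1))⁻¹ * ‖g y * |x - y| ^ (1 - 2 * s)‖) ν :=
        (hint.norm).const_mul _
      refine h1.congr ?_
      filter_upwards [hne] with y hy
      exact ((hinner y hy).2.2).symm
  have e2 : ∀ h, (∫ y, F h y ∂ν) = h ^ (-1 - 2 * s) * ∫ y in Ioo (-1 : ℝ) 1, max (h - |y - x|) 0 * g y := by
    intro h
    simp only [hF]
    rw [integral_const_mul]
  constructor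
  · have h1 := hprod.integral_prod_left
    have : (fun h : ℝ => h ^ (-1 - 2 * s) * ∫ y in Ioo (-1 : ℝ) 1, max (h - |y - x|) 0 * g y) =
        fun h => ∫ y, F h y ∂ν := by
      funext h
      exact (e2 h).symm
    rw [this]
    exact h1
  · have h1 := integral_integral_swap hprod
    have h2 : ∫ h, (∫ y, F h y ∂ν) ∂μ = ∫ h in Ioi (0 : ℝ),
        h ^ (-1 - 2 * s) * ∫ y in Ioo (-1 : ℝ) 1, max (h - |y - x|) 0 * g y := by
      simp only [e2]
      rfl
    rw [← h2, h1, ← integral_const_mul]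
    apply integral_congr_ae
    filter_upwards [hne] with y hy
    exact (hinner y hy).2.1

end Pool.Agent.Q98.FR
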