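import Pool.Agent.Q98.FR.Tool

set_option autoImplicit false

/-! Project FR of helper64: jobs LL, PP (helper98). -/

open MeasureTheory Set Filter Topology
open scoped Real

namespace Pool.Agent.Q98.FR

open Pool.Agent.Q64.FR

theorem ii_abs (r : ℝ) (hr : -1 < r) (a b : ℝ) :
    IntervalIntegrable (fun z : ℝ => |z| ^ r) volume a b := by
  have h0 : ∀ c : ℝ, 0 ≤ c → IntervalIntegrable (fun z : ℝ => |z| ^ r) volume 0 c := by
    intro c hc
    refine (intervalIntegral.intervalIntegrable_rpow' hr (a := 0) (b := c)).congr ?_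
    intro z hz
    rw [uIoc_of_le hc] at hz
    simp only
    rw [abs_of_pos hz.1]
  have h1 : ∀ c : ℝ, IntervalIntegrable (fun z : ℝ => |z| ^ r) volume 0 c := by
    intro c
    rcases le_total 0 c with hc | hc
    · exact h0 c hc
    · have := (IntervalIntegrable.iff_comp_neg).1 (h0 (-c) (by linarith))
      simpa using this
  exact (h1 a).symm.trans (h1 b)

/-- integration of an identity for the moments -/
theorem moment (w Φ φ : ℝ → ℝ) (x : ℝ)
    (hΦ : ∀ y ∈ Ioo (-1 : ℝ) 1, Φ (y - x) = Φ y - ∫ z in (0 : ℝ)..x, φ (y - z))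
    (hint0 : IntegrableOn (fun y => w y * Φ y) (Ioo (-1) 1))
    (hprod : Integrable (fun p : ℝ × ℝ => w p.2 * φ (p.2 - p.1))
      ((volume.restrict (uIoc 0 x)).prod (volume.restrict (Ioo (-1) 1)))) :
    ∫ y in Ioo (-1 : ℝ) 1, w y * Φ (y - x) = (∫ y in Ioo (-1 : ℝ) 1, w y * Φ y) -
      ∫ z in (0 : ℝ)..x, ∫ y in Ioo (-1 : ℝ) 1, w y * φ (y - z) := by
  have h1 : ∀ y ∈ Ioo (-1 : ℝ) 1, w y * Φ (y - x) = w y * Φ y -
      (if (0 : ℝ) ≤ x then 1 else -1) * ∫ z in uIoc 0 x, w y * φ (y - z) := by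
    intro y hy
    rw [hΦ y hy, intervalIntegral.intervalIntegral_eq_integral_uIoc, integral_const_mul, smul_eq_mul]
    ring
  have h2 := hprod.integral_prod_right
  rw [setIntegral_congr_fun measurableSet_Ioo h1, integral_sub hint0 (h2.const_mul _),
    integral_const_mul, intervalIntegral.intervalIntegral_eq_integral_uIoc, smul_eq_mul]
  congr 2
  exact (integral_integral_swap hprod).symm

theorem ftc_psi (r : ℝ) (hr : -1 < r) (y x : ℝ) :
    (y - x) * |y - x| ^ r = y * |y| ^ r - ∫ z in (0 : ℝ)..x, (1 + r) * |y - z| ^ r := by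
  have hc : Continuous (fun z : ℝ => (y - z) * |y - z| ^ r) :=
    (psi_cont r hr).comp (continuous_const.sub continuous_id)
  have h1 := integral_eq_of_hasDerivAt_off_countable (fun z : ℝ => (y - z) * |y - z| ^ r)
    (fun z => -((1 + r) * |y - z| ^ r)) (a := 0) (b := x) (countable_singleton y)
    hc.continuousOn (fun z hz => by
      have hne : y - z ≠ 0 := sub_ne_zero.2 (fun h => hz.2 (by simp [h]))
      have := (psi_deriv r (y - z) hne).comp z ((hasDerivAt_id z).const_sub y)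
      exact this.congr_deriv (by simp)) (by
      have := (ii_abs r hr (y - 0) (y - x)).comp_sub_left y
      simp only [sub_sub_cancel] at this
      exact (this.const_mul (1 + r)).neg)
  rw [intervalIntegral.integral_neg] at h1
  simp only [sub_zero] at h1
  linarith

theorem ftc_psi2 (r : ℝ) (hr : -1 < r) (y x : ℝ) :
    (y - x) ^ 2 * |y - x| ^ r = y ^ 2 * |y| ^ r -
      ∫ z in (0 : ℝ)..x, (2 + r) * ((y - z) * |y - z| ^ r) := by
  have hc : Continuous (fun z : ℝ => (y - z) * |y - z| ^ r) :=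
    (psi_cont r hr).comp (continuous_const.sub continuous_id)
  have hc2 : Continuous (fun z : ℝ => (y - z) ^ 2 * |y - z| ^ r) := by
    have : (fun z : ℝ => (y - z) ^ 2 * |y - z| ^ r) = fun z => (y - z) * ((y - z) * |y - z| ^ r) := by
      funext z
      ring
    rw [this]
    exact (continuous_const.sub continuous_id).mul hc
  have h1 := integral_eq_of_hasDerivAt_off_countable (fun z : ℝ => (y - z) ^ 2 * |y - z| ^ r)
    (fun z => -((2 + r) * ((y - z) * |y - z| ^ r))) (a := 0) (b := x) (countable_singleton y)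
    hc2.continuousOn (fun z hz => by
      have hne : y - z ≠ 0 := sub_ne_zero.2 (fun h => hz.2 (by simp [h]))
      have e1 := (psi_deriv r (y - z) hne).comp z ((hasDerivAt_id z).const_sub y)
      have e2 : HasDerivAt (fun z : ℝ => (y - z)) (-1) z := by
        simpa using (hasDerivAt_id z).const_sub y
      have e3 := e2.mul e1
      refine (e3.congr_of_eventuallyEq (Eventually.of_forall fun u => ?_)).congr_deriv ?_
      · simp only [Pi.mul_apply, Function.comp]
        ring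
      · simp only [Function.comp]
        ring) (by
      exact ((continuous_const.mul hc).neg).intervalIntegrable _ _)
  rw [intervalIntegral.integral_neg] at h1
  simp only [sub_zero] at h1
  linarith

theorem w_meas (s : ℝ) : Measurable (fun y : ℝ => (1 - y ^ 2) ^ (s - 1)) := by fun_prop

theorem w_nonneg (s y : ℝ) (hy : y ∈ Ioo (-1 : ℝ) 1) : 0 ≤ (1 - y ^ 2) ^ (s - 1) :=
  Real.rpow_nonneg (by nlinarith [hy.1, hy.2]) _

theorem uIcc_lt {x z : ℝ} (hx : |x| < 1) (hz : z ∈ uIcc 0 x) : |z| < 1 := by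
  have h := abs_lt.1 hx
  rcases le_total 0 x with h1 | h1
  · rw [uIcc_of_le h1] at hz
    rw [abs_lt]
    constructor <;> linarith [hz.1, hz.2]
  · rw [uIcc_of_ge h1] at hz
    rw [abs_lt]
    constructor <;> linarith [hz.1, hz.2]

theorem uIoc_lt {x z : ℝ} (hx : |x| < 1) (hz : z ∈ uIoc 0 x) : |z| < 1 := by
  have h := abs_lt.1 hx
  rcases le_total 0 x with h1 | h1
  · rw [uIoc_of_le h1] at hz
    rw [abs_lt]
    constructor <;> linarith [hz.1, hz.2]
  · rw [uIoc_of_ge h1] at hz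
    rw [abs_lt]
    constructor <;> linarith [hz.1, hz.2]

/-- the integral of an odd function -/
theorem odd_int (f : ℝ → ℝ) (hf : ∀ y, f (-y) = -f y) : ∫ y in Ioo (-1 : ℝ) 1, f y = 0 := by
  have h1 := (Measure.measurePreserving_neg (volume : Measure ℝ)).setIntegral_preimage_emb
    (Homeomorph.neg ℝ).measurableEmbedding f (Ioo (-1) 1)
  have e : (Neg.neg ⁻¹' Ioo (-1 : ℝ) 1) = Ioo (-1) 1 := by
    ext x
    simp only [mem_preimage, mem_Ioo]
    constructor <;> intro h <;> constructor <;> linarith [h.1, h.2]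
  rw [e] at h1
  simp only [hf] at h1
  rw [integral_neg] at h1
  linarith

theorem t_LL (hI : S_I) : S_LL := by
  intro s x hs0 hs1 hx
  have hs : 0 < s := by linarith
  have hr : -1 < 1 - 2 * s := by linarith
  have hint0 : IntegrableOn (fun y : ℝ => (1 - y ^ 2) ^ (s - 1) * (y * |y| ^ (1 - 2 * s)))
      (Ioo (-1) 1) := by
    have h1 := (hI s 0 hs hs1 (by simp)).1
    simp only [zero_sub, abs_neg] at h1
    refine Integrable.mono' h1 (by fun_prop) ?_
    refine (ae_restrict_iff' measurableSet_Ioo).2 (Eventually.of_forall fun y hy => ?_)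
    have e1 := w_nonneg s y hy
    have e2 : 0 ≤ |y| ^ (1 - 2 * s) := Real.rpow_nonneg (abs_nonneg y) _
    have e3 : |y| ≤ 1 := (abs_lt.2 hy).le
    rw [Real.norm_eq_abs, abs_mul, abs_mul, abs_of_nonneg e1, abs_of_nonneg e2]
    apply mul_le_mul_of_nonneg_left _ e1
    nlinarith
  have hprod : Integrable (fun p : ℝ × ℝ => (1 - p.2 ^ 2) ^ (s - 1) *
      ((1 + (1 - 2 * s)) * |p.2 - p.1| ^ (1 - 2 * s)))
      ((volume.restrict (uIoc 0 x)).prod (volume.restrict (Ioo (-1) 1))) := by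
    have hm : Measurable (fun p : ℝ × ℝ => (1 - p.2 ^ 2) ^ (s - 1) *
      ((1 + (1 - 2 * s)) * |p.2 - p.1| ^ (1 - 2 * s))) := by fun_prop
    rw [integrable_prod_iff hm.aestronglyMeasurable]
    have h2 : ∀ z : ℝ, |z| < 1 → IntegrableOn (fun y : ℝ => (1 - y ^ 2) ^ (s - 1) *
      ((1 + (1 - 2 * s)) * |y - z| ^ (1 - 2 * s))) (Ioo (-1) 1) := by
      intro z hz
      have := ((hI s z hs hs1 hz).1).const_mul (1 + (1 - 2 * s))
      refine IntegrableOn.congr_fun this (fun y _ => ?_) measurableSet_Ioo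
      show (1 + (1 - 2 * s)) * ((1 - y ^ 2) ^ (s - 1) * |z - y| ^ (1 - 2 * s)) = _
      rw [abs_sub_comm z y]
      ring
    constructor
    · refine (ae_restrict_iff' measurableSet_uIoc).2 (Eventually.of_forall fun z hz => ?_)
      exact h2 z (uIoc_lt hx hz)
    · have h3 : ∀ z ∈ uIoc 0 x, (∫ y in Ioo (-1 : ℝ) 1, ‖(1 - y ^ 2) ^ (s - 1) *
          ((1 + (1 - 2 * s)) * |y - z| ^ (1 - 2 * s))‖) = (1 + (1 - 2 * s)) * kk s := by
        intro z hz
        rw [← (hI s z hs hs1 (uIoc_lt hx hz)).2, ← integral_const_mul]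
        refine setIntegral_congr_fun measurableSet_Ioo fun y hy => ?_
        have e1 := w_nonneg s y hy
        have e2 : 0 ≤ |y - z| ^ (1 - 2 * s) := Real.rpow_nonneg (abs_nonneg _) _
        have e3 : 0 ≤ (1 + (1 - 2 * s)) := by linarith
        rw [Real.norm_eq_abs, abs_of_nonneg (by positivity), abs_sub_comm z y]
        ring
      have h4 : IntegrableOn (fun _ : ℝ => (1 + (1 - 2 * s)) * kk s) (uIoc 0 x) :=
        integrableOn_const (by
          rw [uIoc]
          exact measure_Ioc_lt_top.ne)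
      exact h4.congr_fun (fun z hz => (h3 z hz).symm) measurableSet_uIoc
  have h5 := moment (fun y => (1 - y ^ 2) ^ (s - 1)) (fun u => u * |u| ^ (1 - 2 * s))
    (fun u => (1 + (1 - 2 * s)) * |u| ^ (1 - 2 * s)) x (fun y _ => ftc_psi _ hr y x) hint0 hprod
  have h6 : ∫ y in Ioo (-1 : ℝ) 1, (1 - y ^ 2) ^ (s - 1) * (y * |y| ^ (1 - 2 * s)) = 0 := by
    apply odd_int
    intro y
    rw [neg_sq, abs_neg]
    ring
  have h7 : ∫ z in (0 : ℝ)..x, ∫ y in Ioo (-1 : ℝ) 1, (1 - y ^ 2) ^ (s - 1) *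
      ((1 + (1 - 2 * s)) * |y - z| ^ (1 - 2 * s)) = (2 - 2 * s) * kk s * x := by
    rw [intervalIntegral.integral_congr (g := fun _ => (2 - 2 * s) * kk s)]
    · rw [intervalIntegral.integral_const, smul_eq_mul]
      ring
    · intro z hz
      simp only
      rw [← (hI s z hs hs1 (uIcc_lt hx hz)).2, ← integral_const_mul]
      refine setIntegral_congr_fun measurableSet_Ioo fun y _ => ?_
      rw [abs_sub_comm z y]
      ring
  have h8 : ∫ y in Ioo (-1 : ℝ) 1, (1 - y ^ 2) ^ (s - 1) * ((y - x) * |x - y| ^ (1 - 2 * s)) =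
      ∫ y in Ioo (-1 : ℝ) 1, (1 - y ^ 2) ^ (s - 1) * ((y - x) * |y - x| ^ (1 - 2 * s)) := by
    refine setIntegral_congr_fun measurableSet_Ioo fun y _ => ?_
    rw [abs_sub_comm x y]
  rw [h8, h5, h6, h7]
  ring

theorem t_PP (hB : S_BET) (hL : S_LL) : S_PP := by
  intro s x hs0 hs1 hx
  have hs : 0 < s := by linarith
  have hr : -1 < 1 - 2 * s := by linarith
  obtain ⟨_, _, hw, hval⟩ := hB s hs hs1
  have hsq : ∀ y : ℝ, y ^ 2 * |y| ^ (1 - 2 * s) = |y| ^ (3 - 2 * s) := by
    intro y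
    by_cases hy : y = 0
    · subst hy
      rw [abs_zero, Real.zero_rpow (by linarith : 3 - 2 * s ≠ 0)]
      ring
    · rw [← sq_abs, ← Real.rpow_natCast, ← Real.rpow_add (abs_pos.2 hy)]
      congr 1
      push_cast
      ring
  have hint0 : IntegrableOn (fun y : ℝ => (1 - y ^ 2) ^ (s - 1) * (y ^ 2 * |y| ^ (1 - 2 * s)))
      (Ioo (-1) 1) := by
    refine Integrable.mono' hw (by fun_prop) ?_
    refine (ae_restrict_iff' measurableSet_Ioo).2 (Eventually.of_forall fun y hy => ?_)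
    have e1 := w_nonneg s y hy
    have e3 : |y| ≤ 1 := (abs_lt.2 hy).le
    have e4 : |y| ^ (3 - 2 * s) ≤ 1 := Real.rpow_le_one (abs_nonneg y) e3 (by linarith)
    have e5 : 0 ≤ |y| ^ (3 - 2 * s) := Real.rpow_nonneg (abs_nonneg y) _
    rw [Real.norm_eq_abs, abs_mul, hsq, abs_of_nonneg e1, abs_of_nonneg e5]
    exact mul_le_of_le_one_right e1 e4
  have hprod : Integrable (fun p : ℝ × ℝ => (1 - p.2 ^ 2) ^ (s - 1) *
      ((2 + (1 - 2 * s)) * ((p.2 - p.1) * |p.2 - p.1| ^ (1 - 2 * s))))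
      ((volume.restrict (uIoc 0 x)).prod (volume.restrict (Ioo (-1) 1))) := by
    have hfin : IsFiniteMeasure (volume.restrict (uIoc 0 x)) := ⟨by
      rw [Measure.restrict_apply_univ, uIoc]
      exact measure_Ioc_lt_top⟩
    have h1 : Integrable (fun p : ℝ × ℝ => (3 - 2 * s) * 4 * (1 - p.2 ^ 2) ^ (s - 1))
        ((volume.restrict (uIoc 0 x)).prod (volume.restrict (Ioo (-1) 1))) := by
      have := (integrable_const (1 : ℝ) (μ := volume.restrict (uIoc 0 x))).mul_prod
        (hw.const_mul ((3 - 2 * s) * 4))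
      simpa using this
    refine Integrable.mono' h1 (by fun_prop) ?_
    rw [Measure.prod_restrict]
    refine (ae_restrict_iff' (measurableSet_uIoc.prod measurableSet_Ioo)).2
      (Eventually.of_forall fun p hp => ?_)
    obtain ⟨hz, hy⟩ := hp
    have e1 := w_nonneg s p.2 hy
    have e2 : 0 ≤ |p.2 - p.1| ^ (1 - 2 * s) := Real.rpow_nonneg (abs_nonneg _) _
    have e3 : |p.2 - p.1| * |p.2 - p.1| ^ (1 - 2 * s) ≤ 4 := by
      by_cases h : p.2 - p.1 = 0
      · rw [h, abs_zero, zero_mul]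
        norm_num
      · rw [← Real.rpow_one_add' (abs_nonneg _) (by linarith)]
        have e4 : |p.2 - p.1| ≤ 2 := by
          have := abs_sub p.2 p.1
          have := (abs_lt.2 hy).le
          have := (uIoc_lt hx hz).le
          linarith
        calc |p.2 - p.1| ^ (1 + (1 - 2 * s)) ≤ 2 ^ (1 + (1 - 2 * s)) :=
              Real.rpow_le_rpow (abs_nonneg _) e4 (by linarith)
          _ ≤ 2 ^ (2 : ℝ) := Real.rpow_le_rpow_of_exponent_le (by norm_num) (by linarith)
          _ = 4 := by norm_num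
    have e5 : 0 ≤ (2 + (1 - 2 * s)) := by linarith
    rw [Real.norm_eq_abs, abs_mul, abs_mul, abs_mul, abs_of_nonneg e1, abs_of_nonneg e2,
      abs_of_nonneg e5]
    calc (1 - p.2 ^ 2) ^ (s - 1) * ((2 + (1 - 2 * s)) *
          (|p.2 - p.1| * |p.2 - p.1| ^ (1 - 2 * s)))
        ≤ (1 - p.2 ^ 2) ^ (s - 1) * ((2 + (1 - 2 * s)) * 4) := by gcongr
      _ = _ := by ring
  have h5 := moment (fun y => (1 - y ^ 2) ^ (s - 1)) (fun u => u ^ 2 * |u| ^ (1 - 2 * s))
    (fun u => (2 + (1 - 2 * s)) * (u * |u| ^ (1 - 2 * s))) x (fun y _ => ftc_psi2 _ hr y x)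
    hint0 hprod
  have h7 : ∫ z in (0 : ℝ)..x, ∫ y in Ioo (-1 : ℝ) 1, (1 - y ^ 2) ^ (s - 1) *
      ((2 + (1 - 2 * s)) * ((y - z) * |y - z| ^ (1 - 2 * s))) =
      -((3 - 2 * s) * (1 - s) * kk s * x ^ 2) := by
    rw [intervalIntegral.integral_congr
      (g := fun z => (-((3 - 2 * s) * (2 - 2 * s) * kk s)) * z)]
    · rw [intervalIntegral.integral_const_mul, integral_id]
      ring
    · intro z hz
      simp only
      have h9 := hL s z hs0 hs1 (uIcc_lt hx hz)
      calc _ = ∫ y in Ioo (-1 : ℝ) 1, (3 - 2 * s) * ((1 - y ^ 2) ^ (s - 1) *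
            ((y - z) * |z - y| ^ (1 - 2 * s))) := by
            refine setIntegral_congr_fun measurableSet_Ioo fun y _ => ?_
            rw [abs_sub_comm z y]
            ring
        _ = _ := by
            rw [integral_const_mul, h9]
            ring
  have h8 : ∫ y in Ioo (-1 : ℝ) 1, (1 - y ^ 2) ^ (s - 1) * ((y - x) ^ 2 * |x - y| ^ (1 - 2 * s)) =
      ∫ y in Ioo (-1 : ℝ) 1, (1 - y ^ 2) ^ (s - 1) * ((y - x) ^ 2 * |y - x| ^ (1 - 2 * s)) := by
    refine setIntegral_congr_fun measurableSet_Ioo fun y _ => ?_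
    rw [abs_sub_comm x y]
  have h6 : ∫ y in Ioo (-1 : ℝ) 1, (1 - y ^ 2) ^ (s - 1) * (y ^ 2 * |y| ^ (1 - 2 * s)) =
      (1 - s) * kk s := by
    rw [← hval]
    refine setIntegral_congr_fun measurableSet_Ioo fun y _ => ?_
    rw [hsq]
  rw [h8, h5, h6, h7]
  ring

end Pool.Agent.Q98.FR
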