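import Pool.Agent.Q98.FR.Tool

set_option autoImplicit false

/-! Project FR of helper64: job MOB (helper98). -/

open MeasureTheory Set Filter Topology
open scoped Real

namespace Pool.Agent.Q98.FR

open Pool.Agent.Q64.FR

theorem t_MOB : S_MOB := by
  intro s x h0 h1 hx hG
  have hx1 : x ^ 2 < 1 := by rwa [sq_lt_one_iff_abs_lt_one]
  have hp : 0 < 1 - x ^ 2 := by linarith
  have habs := abs_lt.1 hx
  have hd : ∀ z ∈ Ioo (-1 : ℝ) 1, 0 < 1 + x * z := by
    intro z hz
    have h2 : |x * z| < 1 := by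
      rw [abs_mul]
      have h3 : |z| < 1 := abs_lt.2 hz
      have := abs_nonneg x
      have := abs_nonneg z
      nlinarith
    linarith [(abs_lt.1 h2).1]
  have hd' : ∀ z ∈ Ioo (-1 : ℝ) 1, 0 < 1 - x * z := by
    intro z hz
    have := hd (-z) ⟨by linarith [hz.2], by linarith [hz.1]⟩
    linarith
  have hmem : ∀ (x : ℝ), |x| < 1 → ∀ z ∈ Ioo (-1 : ℝ) 1, 0 < 1 + x * z →
      (x + z) / (1 + x * z) ∈ Ioo (-1 : ℝ) 1 := by
    intro x hx z hz h
    have habs := abs_lt.1 hx
    constructor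
    · rw [lt_div_iff₀ h]
      nlinarith [mul_pos (by linarith [habs.1] : 0 < 1 + x) (by linarith [hz.1] : 0 < 1 + z)]
    · rw [div_lt_one h]
      nlinarith [mul_pos (by linarith [habs.2] : 0 < 1 - x) (by linarith [hz.2] : 0 < 1 - z)]
  have him : (fun z : ℝ => (x + z) / (1 + x * z)) '' Ioo (-1) 1 = Ioo (-1) 1 := by
    ext v
    constructor
    · rintro ⟨z, hz, rfl⟩
      exact hmem x hx z hz (hd z hz)
    · intro hv
      have hv1 := hd' v hv
      have h4 := hmem (-x) (by rwa [abs_neg]) v hv (by linarith)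
      refine ⟨(-x + v) / (1 + -x * v), h4, ?_⟩
      have hv2 : 1 + -x * v ≠ 0 := by
        have : 1 + -x * v = 1 - x * v := by ring
        rw [this]
        exact hv1.ne'
      have e1 : x + (-x + v) / (1 + -x * v) = v * (1 - x ^ 2) / (1 + -x * v) := by
        rw [eq_div_iff hv2, add_mul, div_mul_cancel₀ _ hv2]
        ring
      have e2 : 1 + x * ((-x + v) / (1 + -x * v)) = (1 - x ^ 2) / (1 + -x * v) := by
        rw [eq_div_iff hv2, add_mul, mul_assoc, div_mul_cancel₀ _ hv2]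
        ring
      show (x + (-x + v) / (1 + -x * v)) / (1 + x * ((-x + v) / (1 + -x * v))) = v
      rw [e1, e2, div_div_div_cancel_right₀ hv2, mul_div_assoc, div_self hp.ne', mul_one]
  have hinj : InjOn (fun z : ℝ => (x + z) / (1 + x * z)) (Ioo (-1) 1) := by
    intro a ha b hb hab
    simp only at hab
    rw [div_eq_div_iff (hd a ha).ne' (hd b hb).ne'] at hab
    have : (1 - x ^ 2) * (a - b) = 0 := by linarith
    rcases mul_eq_zero.1 this with h | h
    · exact absurd h hp.ne'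
    · linarith
  have hder : ∀ z ∈ Ioo (-1 : ℝ) 1, HasDerivAt (fun z : ℝ => (x + z) / (1 + x * z))
      ((1 - x ^ 2) / (1 + x * z) ^ 2) z := by
    intro z hz
    have e6 : HasDerivAt (fun z : ℝ => 1 + x * z) x z := by
      simpa using ((hasDerivAt_id z).const_mul x).const_add 1
    have e5 : HasDerivAt (fun z : ℝ => x + z) 1 z := by
      simpa using (hasDerivAt_id z).const_add x
    refine (e5.div e6 (hd z hz).ne').congr_deriv ?_
    congr 1
    ring
  have hcov := cov (fun z : ℝ => (x + z) / (1 + x * z)) (fun z => (1 - x ^ 2) / (1 + x * z) ^ 2)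
    (fun y => (1 - y ^ 2) ^ (s - 1) * |x - y| ^ (1 - 2 * s)) hder hinj him
  have h3 : ∀ z ∈ Ioo (-1 : ℝ) 1, |(1 - x ^ 2) / (1 + x * z) ^ 2| *
      ((1 - ((x + z) / (1 + x * z)) ^ 2) ^ (s - 1) *
        |x - (x + z) / (1 + x * z)| ^ (1 - 2 * s)) =
      (1 - x ^ 2) ^ (1 - s) * ((1 - z ^ 2) ^ (s - 1) * |z| ^ (1 - 2 * s) / (1 + x * z)) := by
    intro z hz
    have hdz := hd z hz
    have hz2 : 0 < 1 - z ^ 2 := by nlinarith [hz.1, hz.2]
    have e8 : 1 - ((x + z) / (1 + x * z)) ^ 2 = (1 - x ^ 2) * (1 - z ^ 2) / (1 + x * z) ^ 2 := by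
      rw [eq_div_iff (by positivity), sub_mul, div_pow, div_mul_cancel₀ _ (by positivity)]
      ring
    have e9 : |x - (x + z) / (1 + x * z)| = |z| * (1 - x ^ 2) / (1 + x * z) := by
      have e9' : x - (x + z) / (1 + x * z) = -(z * ((1 - x ^ 2) / (1 + x * z))) := by
        rw [← mul_div_assoc, ← neg_div, eq_div_iff hdz.ne', sub_mul, div_mul_cancel₀ _ hdz.ne']
        ring
      rw [e9', abs_neg, abs_mul, abs_of_pos (div_pos hp hdz), mul_div_assoc]
    rw [abs_of_pos (by positivity), e8, e9, Real.div_rpow (by positivity) (by positivity),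
      Real.div_rpow (by positivity) hdz.le, Real.mul_rpow hp.le hz2.le,
      Real.mul_rpow (abs_nonneg z) hp.le]
    have e10 : ((1 + x * z) ^ 2) ^ (s - 1) * (1 + x * z) ^ (1 - 2 * s) * (1 + x * z) = 1 := by
      rw [← Real.rpow_natCast (1 + x * z) 2, ← Real.rpow_mul hdz.le, ← Real.rpow_add hdz,
        ← Real.rpow_add_one hdz.ne']
      have e0 : (((2 : ℕ) : ℝ) * (s - 1) + (1 - 2 * s) + 1) = 0 := by
        push_cast
        ring
      rw [e0, Real.rpow_zero]
    have e11 : (1 - x ^ 2) ^ (s - 1) * (1 - x ^ 2) ^ (1 - 2 * s) * (1 - x ^ 2) =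
        (1 - x ^ 2) ^ (1 - s) := by
      rw [← Real.rpow_add hp, ← Real.rpow_add_one hp.ne']
      congr 1
      ring
    have e12 : 0 < ((1 + x * z) ^ 2) ^ (s - 1) := by positivity
    have e13 : 0 < (1 + x * z) ^ (1 - 2 * s) := by positivity
    rw [← e11]
    generalize (1 - x ^ 2) ^ (s - 1) = T
    generalize (1 - x ^ 2) ^ (1 - 2 * s) = U
    generalize (1 - z ^ 2) ^ (s - 1) = W
    generalize |z| ^ (1 - 2 * s) = Z
    generalize ((1 + x * z) ^ 2) ^ (s - 1) = A at *
    generalize (1 + x * z) ^ (1 - 2 * s) = B at *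
    generalize (1 + x * z) = D at *
    generalize (1 - x ^ 2) = P at *
    have e14 : P / D ^ 2 * (T * W / A * (Z * U / B)) = P * T * W * Z * U / (A * B * D) / D := by
      field_simp
    rw [e14, e10, div_one]
    ring
  have h4 : IntegrableOn (fun z => |(1 - x ^ 2) / (1 + x * z) ^ 2| *
      ((1 - ((x + z) / (1 + x * z)) ^ 2) ^ (s - 1) *
        |x - (x + z) / (1 + x * z)| ^ (1 - 2 * s))) (Ioo (-1) 1) :=
    IntegrableOn.congr_fun (hG.const_mul ((1 - x ^ 2) ^ (1 - s))) (fun z hz => (h3 z hz).symm)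
      measurableSet_Ioo
  refine ⟨hcov.1.2 h4, ?_⟩
  rw [hcov.2, setIntegral_congr_fun measurableSet_Ioo h3, integral_const_mul]

end Pool.Agent.Q98.FR
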