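import Pool.Agent.Q98.FR.Tool

set_option autoImplicit false

/-! Project FR of helper64: job ONE (helper98). -/

open MeasureTheory Set Filter Topology
open scoped Real

namespace Pool.Agent.Q98.FR

open Pool.Agent.Q64.FR

theorem v_scale (ρ β y : ℝ) : v (ρ ^ 2) β (ρ * y) = (ρ ^ 2) ^ β * v 1 β y := by
  unfold v
  have e : ρ ^ 2 - (ρ * y) ^ 2 = ρ ^ 2 * (1 - y ^ 2) := by ring
  have e2 : max (ρ ^ 2 - (ρ * y) ^ 2) 0 = ρ ^ 2 * max (1 - y ^ 2) 0 := by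
    rw [e, mul_max_of_nonneg _ _ (sq_nonneg ρ), mul_zero]
  rw [e2, Real.mul_rpow (sq_nonneg ρ) (le_max_right _ _)]

theorem dd_scale (ρ β p h : ℝ) :
    dd (v (ρ ^ 2) β) (ρ * p) (ρ * h) = (ρ ^ 2) ^ β * dd (v 1 β) p h := by
  unfold dd
  rw [← mul_add, ← mul_sub, v_scale, v_scale, v_scale]
  ring

theorem t_ONE (h1 : S_ONE1) : S_ONE := by
  intro s τ p hs0 hs1 hp
  have hτ : 0 < τ := lt_of_le_of_lt (sq_nonneg p) hp
  obtain ⟨ρ, hρ, rfl⟩ : ∃ ρ : ℝ, 0 < ρ ∧ τ = ρ ^ 2 :=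
    ⟨Real.sqrt τ, Real.sqrt_pos.2 hτ, (Real.sq_sqrt hτ.le).symm⟩
  obtain ⟨q, rfl⟩ : ∃ q : ℝ, p = ρ * q := ⟨p / ρ, by field_simp⟩
  have hq : |q| < 1 := by
    have : (ρ * q) ^ 2 = ρ ^ 2 * q ^ 2 := by ring
    rw [this] at hp
    have h2 : q ^ 2 < 1 := by
      by_contra hcon
      have h3 : 1 ≤ q ^ 2 := not_lt.1 hcon
      have : 0 < ρ ^ 2 := by positivity
      nlinarith
    exact (sq_lt_one_iff_abs_lt_one q).1 h2
  obtain ⟨h2, h3⟩ := h1 s q hs0 hs1 hq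
  have key : ∀ h ∈ Ioi (0 : ℝ), dd (v (ρ ^ 2) (s + 1)) (ρ * q) (ρ * h) * (ρ * h) ^ (-1 - 2 * s) =
      ((ρ ^ 2) ^ (s + 1) * ρ ^ (-1 - 2 * s)) * (dd (v 1 (s + 1)) q h * h ^ (-1 - 2 * s)) := by
    intro h hh
    rw [dd_scale, Real.mul_rpow hρ.le (le_of_lt hh)]
    ring
  have hconst : ρ * ((ρ ^ 2) ^ (s + 1) * ρ ^ (-1 - 2 * s)) = ρ ^ 2 := by
    have e1 : (ρ ^ 2) ^ (s + 1) = ρ ^ (2 * s + 2) := by
      rw [← Real.rpow_natCast, ← Real.rpow_mul hρ.le]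
      congr 1
      push_cast
      ring
    have e2 : ρ * (ρ ^ (2 * s + 2) * ρ ^ (-1 - 2 * s)) = ρ ^ (1 : ℝ) * (ρ ^ (2 * s + 2) * ρ ^ (-1 - 2 * s)) := by
      rw [Real.rpow_one]
    rw [e1, e2, ← Real.rpow_add hρ, ← Real.rpow_add hρ, ← Real.rpow_natCast]
    congr 1
    push_cast
    ring
  constructor
  · have h4 := integrableOn_Ioi_comp_mul_left_iff
      (fun h : ℝ => dd (v (ρ ^ 2) (s + 1)) (ρ * q) h * h ^ (-1 - 2 * s)) 0 hρ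
    rw [mul_zero] at h4
    rw [← h4]
    exact IntegrableOn.congr_fun (h2.const_mul ((ρ ^ 2) ^ (s + 1) * ρ ^ (-1 - 2 * s)))
      (fun h hh => (key h hh).symm) measurableSet_Ioi
  · have h4 := integral_comp_mul_left_Ioi
      (fun h : ℝ => dd (v (ρ ^ 2) (s + 1)) (ρ * q) h * h ^ (-1 - 2 * s)) 0 hρ
    rw [mul_zero, setIntegral_congr_fun measurableSet_Ioi key, integral_const_mul, h3, smul_eq_mul] at h4
    have h5 : ∫ h in Ioi (0 : ℝ), dd (v (ρ ^ 2) (s + 1)) (ρ * q) h * h ^ (-1 - 2 * s) =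
        (ρ * ((ρ ^ 2) ^ (s + 1) * ρ ^ (-1 - 2 * s))) * ((s + 1) * kk s * (1 - (1 + 2 * s) * q ^ 2)) := by
      rw [mul_assoc, h4, ← mul_assoc, mul_inv_cancel₀ hρ.ne', one_mul]
    rw [h5, hconst]
    ring

end Pool.Agent.Q98.FR
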