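import Pool.Agent.Q98.FR.BET

set_option autoImplicit false

/-! Project FR of helper64: job TAY (helper98). -/

open MeasureTheory Set Filter Topology
open scoped Real

namespace Pool.Agent.Q98.FR

open Pool.Agent.Q64.FR

/-- the second derivative density -/
noncomputable def gg (s y : ℝ) : ℝ := (1 - y ^ 2) ^ (s - 1) * (1 - (1 + 2 * s) * y ^ 2)

/-- the (normalised) first derivative -/
noncomputable def WW (s y : ℝ) : ℝ := y * (max (1 - y ^ 2) 0) ^ s

theorem max_cont (β : ℝ) (hβ : 0 < β) : Continuous (fun y : ℝ => (max (1 - y ^ 2) 0) ^ β) := by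
  apply Continuous.rpow_const (by fun_prop)
  intro y
  exact Or.inr hβ.le

theorem WW_cont (s : ℝ) (hs : 0 < s) : Continuous (WW s) :=
  continuous_id.mul (max_cont s hs)

theorem ev_in {y : ℝ} (hy : y ∈ Ioo (-1 : ℝ) 1) :
    ∀ᶠ u in 𝓝 y, max (1 - u ^ 2) 0 = 1 - u ^ 2 := by
  filter_upwards [isOpen_Ioo.mem_nhds hy] with u hu
  exact max_eq_left (by nlinarith [hu.1, hu.2])

theorem ev_out {y : ℝ} (hy : 1 < |y|) :
    ∀ᶠ u in 𝓝 y, max (1 - u ^ 2) 0 = 0 := by
  have : {u : ℝ | 1 < |u|} ∈ 𝓝 y := (isOpen_lt continuous_const continuous_abs).mem_nhds hy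
  filter_upwards [this] with u hu
  apply max_eq_right
  have h1 : 1 < |u| := hu
  have : u ^ 2 = |u| ^ 2 := (sq_abs u).symm
  rw [this]
  nlinarith

theorem cases_y {y : ℝ} (hy : y ∉ ({-1, 1} : Set ℝ)) : y ∈ Ioo (-1 : ℝ) 1 ∨ 1 < |y| := by
  simp only [mem_insert_iff, mem_singleton_iff, not_or] at hy
  by_cases h : 1 < |y|
  · exact Or.inr h
  · left
    have h1 := abs_le.1 (not_lt.1 h)
    exact ⟨lt_of_le_of_ne h1.1 (Ne.symm hy.1), lt_of_le_of_ne h1.2 hy.2⟩

theorem WW_deriv (s y : ℝ) (hs : 0 < s) (hy : y ∉ ({-1, 1} : Set ℝ)) :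
    HasDerivAt (WW s) ((Ioo (-1 : ℝ) 1).indicator (gg s) y) y := by
  rcases cases_y hy with h | h
  · rw [indicator_of_mem h]
    have hpos : 0 < 1 - y ^ 2 := by nlinarith [h.1, h.2]
    have h1 : HasDerivAt (fun u : ℝ => 1 - u ^ 2) (-(2 * y)) y := by
      simpa using ((hasDerivAt_pow 2 y).const_sub 1)
    have h2 := (hasDerivAt_id y).mul (h1.rpow_const (p := s) (Or.inl hpos.ne'))
    refine (h2.congr_of_eventuallyEq ?_).congr_deriv ?_
    · filter_upwards [ev_in h] with u hu
      simp only [WW, hu, Pi.mul_apply, id]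
    · simp only [id, gg]
      have : (1 - y ^ 2) ^ s = (1 - y ^ 2) ^ (s - 1) * (1 - y ^ 2) := by
        rw [← Real.rpow_add_one hpos.ne']
        congr 1
        ring
      rw [this]
      ring
  · have hn : y ∉ Ioo (-1 : ℝ) 1 := by
      intro h1
      have := abs_lt.2 h1
      linarith
    rw [indicator_of_notMem hn]
    refine (hasDerivAt_const y (0 : ℝ)).congr_of_eventuallyEq ?_
    filter_upwards [ev_out h] with u hu
    simp only [WW, hu, Real.zero_rpow hs.ne', mul_zero]

theorem VV_deriv (s y : ℝ) (hs : 0 < s) (hy : y ∉ ({-1, 1} : Set ℝ)) :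
    HasDerivAt (v 1 (s + 1)) (-(2 * (s + 1)) * WW s y) y := by
  rcases cases_y hy with h | h
  · have hpos : 0 < 1 - y ^ 2 := by nlinarith [h.1, h.2]
    have h1 : HasDerivAt (fun u : ℝ => 1 - u ^ 2) (-(2 * y)) y := by
      simpa using ((hasDerivAt_pow 2 y).const_sub 1)
    have h2 := h1.rpow_const (p := s + 1) (Or.inl hpos.ne')
    refine (h2.congr_of_eventuallyEq ?_).congr_deriv ?_
    · filter_upwards [ev_in h] with u hu
      simp only [v, hu]
    · simp only [WW]
      rw [max_eq_left hpos.le, add_sub_cancel_right]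
      ring
  · have h0 : max (1 - y ^ 2) 0 = 0 := (ev_out h).self_of_nhds
    have h3 : -(2 * (s + 1)) * WW s y = 0 := by
      simp only [WW, h0, Real.zero_rpow hs.ne', mul_zero]
    rw [h3]
    refine (hasDerivAt_const y (0 : ℝ)).congr_of_eventuallyEq ?_
    filter_upwards [ev_out h] with u hu
    simp only [v, hu]
    exact Real.zero_rpow (by linarith)

theorem gg_int (s : ℝ) (hs0 : 0 < s) (hs1 : s < 1) : IntegrableOn (gg s) (Ioo (-1) 1) := by
  have h1 := (t_BET s hs0 hs1).2.2.1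
  have h2 : IntegrableOn (fun y : ℝ => (2 + 2 * s) * (1 - y ^ 2) ^ (s - 1)) (Ioo (-1) 1) :=
    h1.const_mul _
  refine Integrable.mono' h2 (by unfold gg; fun_prop) ?_
  refine (ae_restrict_iff' measurableSet_Ioo).2 (Eventually.of_forall fun y hy => ?_)
  have hw : 0 ≤ (1 - y ^ 2) ^ (s - 1) := Real.rpow_nonneg (by nlinarith [hy.1, hy.2]) _
  have hy2 : y ^ 2 < 1 := by nlinarith [hy.1, hy.2]
  have hb : |1 - (1 + 2 * s) * y ^ 2| ≤ 2 + 2 * s := by
    rw [abs_le]
    constructor <;> nlinarith [sq_nonneg y]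
  unfold gg
  rw [norm_mul, Real.norm_eq_abs, Real.norm_eq_abs, abs_of_nonneg hw, mul_comm]
  exact mul_le_mul_of_nonneg_right hb hw

theorem ind_int (s : ℝ) (hs0 : 0 < s) (hs1 : s < 1) :
    Integrable ((Ioo (-1 : ℝ) 1).indicator (gg s)) :=
  (gg_int s hs0 hs1).integrable_indicator measurableSet_Ioo

theorem cnt : ({-1, 1} : Set ℝ).Countable := (Set.toFinite _).countable

theorem WW_ftc (s a b : ℝ) (hs0 : 0 < s) (hs1 : s < 1) :
    ∫ y in a..b, (Ioo (-1 : ℝ) 1).indicator (gg s) y = WW s b - WW s a :=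
  integral_eq_of_hasDerivAt_off_countable (WW s) _ cnt (WW_cont s hs0).continuousOn
    (fun y hy => WW_deriv s y hs0 hy.2) (ind_int s hs0 hs1).intervalIntegrable

theorem VV_ftc (s a b : ℝ) (hs0 : 0 < s) :
    ∫ y in a..b, -(2 * (s + 1)) * WW s y = v 1 (s + 1) b - v 1 (s + 1) a :=
  integral_eq_of_hasDerivAt_off_countable (v 1 (s + 1)) _ cnt
    (by
      have := max_cont (s + 1) (by linarith)
      exact this.continuousOn)
    (fun y hy => VV_deriv s y hs0 hy.2)
    ((continuous_const.mul (WW_cont s hs0)).intervalIntegrable _ _)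

theorem dd_WW (s x h : ℝ) (hs0 : 0 < s) :
    dd (v 1 (s + 1)) x h = 2 * (s + 1) * ∫ t in (0 : ℝ)..h, (WW s (x + t) - WW s (x - t)) := by
  have h1 := VV_ftc s x (x + h) hs0
  have h2 := VV_ftc s (x - h) x hs0
  rw [intervalIntegral.integral_const_mul] at h1 h2
  have h3 : ∫ t in (0 : ℝ)..h, WW s (x + t) = ∫ y in x..(x + h), WW s y := by
    rw [intervalIntegral.integral_comp_add_left (fun y => WW s y)]
    simp
  have h4 : ∫ t in (0 : ℝ)..h, WW s (x - t) = ∫ y in (x - h)..x, WW s y := by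
    rw [intervalIntegral.integral_comp_sub_left (fun y => WW s y)]
    simp
  have c := WW_cont s hs0
  have c1 : Continuous (fun t : ℝ => WW s (x + t)) := c.comp (by fun_prop)
  have c2 : Continuous (fun t : ℝ => WW s (x - t)) := c.comp (by fun_prop)
  rw [intervalIntegral.integral_sub (c1.intervalIntegrable _ _) (c2.intervalIntegrable _ _), h3, h4]
  unfold dd
  linarith

theorem t_TAY : S_TAY := by
  intro s x h hs0 hs1 hh
  rw [dd_WW s x h hs0]
  congr 1
  set μ : Measure ℝ := volume.restrict (Ioc 0 h) with hμ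
  set ν : Measure ℝ := volume.restrict (Ioo (-1) 1) with hν
  set S : Set (ℝ × ℝ) := {p | x - p.1 < p.2 ∧ p.2 ≤ x + p.1} with hS
  have hSm : MeasurableSet S := by
    have m1 : MeasurableSet {p : ℝ × ℝ | x - p.1 < p.2} :=
      measurableSet_lt (measurable_const.sub measurable_fst) measurable_snd
    have m2 : MeasurableSet {p : ℝ × ℝ | p.2 ≤ x + p.1} :=
      measurableSet_le measurable_snd (measurable_const.add measurable_fst)
    exact m1.inter m2
  have hprod : Integrable (S.indicator (fun p : ℝ × ℝ => gg s p.2)) (μ.prod ν) :=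
    ((gg_int s hs0 hs1).comp_snd μ).indicator hSm
  have hswap := integral_integral_swap (f := fun t y => S.indicator (fun p : ℝ × ℝ => gg s p.2) (t, y)) hprod
  have hL : ∫ t in (0 : ℝ)..h, (WW s (x + t) - WW s (x - t)) =
      ∫ t, (∫ y, S.indicator (fun p : ℝ × ℝ => gg s p.2) (t, y) ∂ν) ∂μ := by
    rw [intervalIntegral.integral_of_le hh.le]
    refine setIntegral_congr_fun measurableSet_Ioc fun t ht => ?_
    rw [← WW_ftc s (x - t) (x + t) hs0 hs1, intervalIntegral.integral_of_le (by linarith [ht.1]),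
      ← integral_indicator measurableSet_Ioc, hν, ← integral_indicator measurableSet_Ioo]
    congr 1
    funext y
    rw [indicator_indicator]
    by_cases h1 : y ∈ Ioo (-1 : ℝ) 1
    · rw [indicator_of_mem h1]
      by_cases h2 : y ∈ Ioc (x - t) (x + t)
      · rw [indicator_of_mem (show y ∈ Ioc (x - t) (x + t) ∩ Ioo (-1) 1 from ⟨h2, h1⟩),
          indicator_of_mem (show (t, y) ∈ S from ⟨h2.1, h2.2⟩)]
      · rw [indicator_of_notMem (fun h3 : y ∈ Ioc (x - t) (x + t) ∩ Ioo (-1) 1 => h2 h3.1),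
          indicator_of_notMem (fun h3 : (t, y) ∈ S => h2 ⟨h3.1, h3.2⟩)]
    · rw [indicator_of_notMem h1,
          indicator_of_notMem (fun h3 : y ∈ Ioc (x - t) (x + t) ∩ Ioo (-1) 1 => h1 h3.2)]
  rw [hL, hswap]
  apply integral_congr_ae
  refine Eventually.of_forall fun y => ?_
  simp only
  have hne : ∀ᵐ t ∂μ, t ≠ |y - x| := by
    rw [hμ]
    apply ae_restrict_of_ae
    rw [ae_iff]
    simp
  have h1 : (fun t => S.indicator (fun p : ℝ × ℝ => gg s p.2) (t, y)) =ᵐ[μ]
      (Ioc |y - x| h).indicator (fun _ => gg s y) := by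
    have hmem : ∀ᵐ t ∂μ, t ∈ Ioc 0 h := by
      rw [hμ]
      exact ae_restrict_mem measurableSet_Ioc
    filter_upwards [hne, hmem] with t ht1 ht2
    have hiff : (t, y) ∈ S ↔ t ∈ Ioc |y - x| h := by
      constructor
      · intro h3
        have h4 : x - t < y := h3.1
        have h5 : y ≤ x + t := h3.2
        refine ⟨lt_of_le_of_ne ?_ (Ne.symm ht1), ht2.2⟩
        rw [abs_le]
        constructor <;> linarith
      · intro h3
        have h4 := abs_lt.1 h3.1
        exact ⟨by show x - t < y; linarith [h4.1], by show y ≤ x + t; linarith [h4.2]⟩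
    by_cases h3 : (t, y) ∈ S
    · rw [indicator_of_mem h3, indicator_of_mem (hiff.1 h3)]
    · rw [indicator_of_notMem h3, indicator_of_notMem (fun h4 => h3 (hiff.2 h4))]
  rw [integral_congr_ae h1, integral_indicator measurableSet_Ioc, hμ,
    Measure.restrict_restrict measurableSet_Ioc]
  have h2 : Ioc |y - x| h ∩ Ioc 0 h = Ioc |y - x| h := by
    apply inter_eq_left.2
    intro t ht
    exact ⟨lt_of_le_of_lt (abs_nonneg _) ht.1, ht.2⟩
  rw [h2, setIntegral_const, Real.volume_real_Ioc, smul_eq_mul]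
  rfl

end Pool.Agent.Q98.FR
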