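import Pool.Agent.Q64.FR.Stm

set_option autoImplicit false

/-! Project FR of helper64: tools (helper98). -/

open MeasureTheory Set Filter Topology
open scoped Real

namespace Pool.Agent.Q98.FR

open Pool.Agent.Q64.FR

/-- change of variables on an interval -/
theorem cov {a b c d : ℝ} (f f' g : ℝ → ℝ) (hf : ∀ x ∈ Ioo a b, HasDerivAt f (f' x) x)
    (hinj : InjOn f (Ioo a b)) (him : f '' Ioo a b = Ioo c d) :
    (IntegrableOn g (Ioo c d) ↔ IntegrableOn (fun x => |f' x| * g (f x)) (Ioo a b)) ∧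
      ∫ y in Ioo c d, g y = ∫ x in Ioo a b, |f' x| * g (f x) := by
  rw [← him]
  exact ⟨integrableOn_image_iff_integrableOn_abs_deriv_smul measurableSet_Ioo
      (fun x hx => (hf x hx).hasDerivWithinAt) hinj g,
    integral_image_eq_integral_abs_deriv_smul measurableSet_Ioo
      (fun x hx => (hf x hx).hasDerivWithinAt) hinj g⟩

/-- the real Beta integral -/
theorem beta_real (a b : ℝ) (ha : 0 < a) (hb : 0 < b) :
    IntegrableOn (fun q : ℝ => q ^ (a - 1) * (1 - q) ^ (b - 1)) (Ioo 0 1) ∧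
      ∫ q in Ioo (0 : ℝ) 1, q ^ (a - 1) * (1 - q) ^ (b - 1) = ProbabilityTheory.beta a b := by
  have h1 := Complex.betaIntegral_convergent (u := a) (v := b) (by simpa) (by simpa)
  rw [intervalIntegrable_iff_integrableOn_Ioc_of_le (by simp)] at h1
  have h2 : ∀ x ∈ Ioc (0 : ℝ) 1, ((x : ℂ) ^ ((a : ℂ) - 1) * (1 - (x : ℂ)) ^ ((b : ℂ) - 1)) =
      ((x ^ (a - 1) * (1 - x) ^ (b - 1) : ℝ) : ℂ) := by
    intro x hx
    have e1 : ((a : ℂ) - 1) = ((a - 1 : ℝ) : ℂ) := by push_cast; ring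
    have e2 : ((b : ℂ) - 1) = ((b - 1 : ℝ) : ℂ) := by push_cast; ring
    have e3 : (1 - (x : ℂ)) = ((1 - x : ℝ) : ℂ) := by push_cast; ring
    rw [e1, e2, e3, ← Complex.ofReal_cpow hx.1.le, ← Complex.ofReal_cpow (by linarith [hx.2]),
      ← Complex.ofReal_mul]
  have h3 : IntegrableOn (fun x : ℝ => ((x ^ (a - 1) * (1 - x) ^ (b - 1) : ℝ) : ℂ)) (Ioc 0 1) :=
    h1.congr_fun h2 measurableSet_Ioc
  have h4 : IntegrableOn (fun x : ℝ => x ^ (a - 1) * (1 - x) ^ (b - 1)) (Ioc 0 1) := by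
    have := h3.re
    simp only [RCLike.re_to_complex, Complex.ofReal_re] at this
    exact this
  refine ⟨h4.mono_set Ioo_subset_Ioc_self, ?_⟩
  rw [ProbabilityTheory.beta_eq_betaIntegralReal a b ha hb, Complex.betaIntegral,
    intervalIntegral.integral_of_le (by norm_num), setIntegral_congr_fun measurableSet_Ioc h2,
    integral_complex_ofReal, Complex.ofReal_re, integral_Ioc_eq_integral_Ioo]

/-- the square substitution -/
theorem cov_sq (g : ℝ → ℝ) :
    (IntegrableOn g (Ioo 0 1) ↔ IntegrableOn (fun x => 2 * x * g (x ^ 2)) (Ioo 0 1)) ∧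
      ∫ y in Ioo (0 : ℝ) 1, g y = ∫ x in Ioo (0 : ℝ) 1, 2 * x * g (x ^ 2) := by
  have him : (fun x : ℝ => x ^ 2) '' Ioo 0 1 = Ioo 0 1 := by
    ext y
    constructor
    · rintro ⟨x, hx, rfl⟩
      have h0 := hx.1
      have h1 := hx.2
      exact ⟨by positivity, by nlinarith⟩
    · intro hy
      refine ⟨Real.sqrt y, ⟨Real.sqrt_pos.2 hy.1, ?_⟩, Real.sq_sqrt hy.1.le⟩
      rw [Real.sqrt_lt' one_pos]
      simpa using hy.2
  have hinj : InjOn (fun x : ℝ => x ^ 2) (Ioo 0 1) := by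
    intro x hx y hy h
    have h0 := hx.1
    have h1 := hy.1
    simp only at h
    nlinarith
  have h1 := cov (a := 0) (b := 1) (c := 0) (d := 1) (fun x : ℝ => x ^ 2) (fun x => 2 * x) g
    (fun x _ => by simpa using hasDerivAt_pow 2 x) hinj him
  have h2 : ∀ x ∈ Ioo (0 : ℝ) 1, |2 * x| * g (x ^ 2) = 2 * x * g (x ^ 2) := by
    intro x hx
    rw [abs_of_pos (by linarith [hx.1])]
  constructor
  · rw [h1.1]
    exact integrableOn_congr_fun h2 measurableSet_Ioo
  · rw [h1.2]
    exact setIntegral_congr_fun measurableSet_Ioo h2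

/-- a function on `(-1,1)` from its two halves -/
theorem halves (f : ℝ → ℝ) (h1 : IntegrableOn f (Ioo 0 1))
    (h2 : IntegrableOn (fun x => f (-x)) (Ioo 0 1)) :
    IntegrableOn f (Ioo (-1) 1) ∧
      ∫ x in Ioo (-1 : ℝ) 1, f x = ∫ x in Ioo (0 : ℝ) 1, (f x + f (-x)) := by
  have h3 : IntegrableOn f (Ioo (-1) 0) := by
    have := (Measure.measurePreserving_neg (volume : Measure ℝ)).integrableOn_comp_preimage
      (Homeomorph.neg ℝ).measurableEmbedding (f := f) (s := Ioo (-1) 0)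
    rw [← this]
    have e : (Neg.neg ⁻¹' Ioo (-1 : ℝ) 0) = Ioo 0 1 := by
      ext x
      simp only [mem_preimage, mem_Ioo]
      constructor <;> intro h <;> constructor <;> linarith [h.1, h.2]
    rw [e]
    exact h2
  have h4 : IntegrableOn f (Ioc (-1) 0) := (integrableOn_Ioc_iff_integrableOn_Ioo).2 h3
  have e1 : Ioo (-1 : ℝ) 1 = Ioc (-1) 0 ∪ Ioo 0 1 := by
    rw [Ioc_union_Ioo_eq_Ioo (by norm_num) (by norm_num)]
  have h5 : IntegrableOn f (Ioo (-1) 1) := by
    rw [e1]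
    exact h4.union h1
  refine ⟨h5, ?_⟩
  rw [e1, setIntegral_union _ measurableSet_Ioo h4 h1, integral_add h1 h2,
    integral_Ioc_eq_integral_Ioo]
  · have h6 : ∫ x in Ioo (-1 : ℝ) 0, f x = ∫ x in Ioo (0 : ℝ) 1, f (-x) := by
      have := (Measure.measurePreserving_neg (volume : Measure ℝ)).setIntegral_preimage_emb
        (Homeomorph.neg ℝ).measurableEmbedding f (Ioo (-1) 0)
      rw [← this]
      have e : (Neg.neg ⁻¹' Ioo (-1 : ℝ) 0) = Ioo 0 1 := by
        ext x
        simp only [mem_preimage, mem_Ioo]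
        constructor <;> intro h <;> constructor <;> linarith [h.1, h.2]
      rw [e]
    rw [h6, add_comm]
  · rw [Set.disjoint_left]
    intro x hx hy
    exact absurd hy.1 (not_lt.2 hx.2)

/-- the function `u |u|^r` -/
theorem psi_cont (r : ℝ) (hr : -1 < r) : Continuous (fun u : ℝ => u * |u| ^ r) := by
  rw [continuous_iff_continuousAt]
  intro u
  by_cases hu : u = 0
  · subst hu
    have h1 : ∀ v : ℝ, ‖v * |v| ^ r‖ ≤ |v| ^ (1 + r) := by
      intro v
      by_cases hv : v = 0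
      · subst hv
        rw [zero_mul, norm_zero]
        positivity
      · rw [Real.norm_eq_abs, abs_mul, abs_of_nonneg (Real.rpow_nonneg (abs_nonneg v) r),
          Real.rpow_add (abs_pos.2 hv), Real.rpow_one]
    have h2 : Tendsto (fun v : ℝ => |v| ^ (1 + r)) (𝓝 0) (𝓝 0) := by
      have : Continuous (fun v : ℝ => |v| ^ (1 + r)) :=
        continuous_abs.rpow_const (fun _ => Or.inr (by linarith))
      have h3 := this.tendsto 0
      simpa [Real.zero_rpow (by linarith : (1 + r) ≠ 0)] using h3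
    show Tendsto _ (𝓝 0) (𝓝 ((0 : ℝ) * |0| ^ r))
    rw [zero_mul]
    exact squeeze_zero_norm h1 h2
  · exact continuousAt_id.mul ((continuous_abs.continuousAt).rpow_const (Or.inl (by simpa using hu)))

theorem psi_deriv (r u : ℝ) (hu : u ≠ 0) :
    HasDerivAt (fun u : ℝ => u * |u| ^ r) ((1 + r) * |u| ^ r) u := by
  rcases lt_or_gt_of_ne hu with h | h
  · have h1 : HasDerivAt (fun u : ℝ => u * (-u) ^ r)
        (1 * (-u) ^ r + u * ((-1) * r * (-u) ^ (r - 1))) u :=
      (hasDerivAt_id u).mul ((hasDerivAt_neg u).rpow_const (Or.inl (by linarith)))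
    have h2 : (fun u : ℝ => u * |u| ^ r) =ᶠ[𝓝 u] fun u : ℝ => u * (-u) ^ r := by
      filter_upwards [Iio_mem_nhds h] with v hv
      rw [abs_of_neg hv]
    refine (h1.congr_of_eventuallyEq h2).congr_deriv ?_
    rw [abs_of_neg h, Real.rpow_sub_one (by linarith)]
    field_simp
  · have h1 : HasDerivAt (fun u : ℝ => u * u ^ r)
        (1 * u ^ r + u * (1 * r * u ^ (r - 1))) u :=
      (hasDerivAt_id u).mul ((hasDerivAt_id u).rpow_const (Or.inl (by simpa using h.ne')))
    have h2 : (fun u : ℝ => u * |u| ^ r) =ᶠ[𝓝 u] fun u : ℝ => u * u ^ r := by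
      filter_upwards [Ioi_mem_nhds h] with v hv
      rw [abs_of_pos hv]
    refine (h1.congr_of_eventuallyEq h2).congr_deriv ?_
    rw [abs_of_pos h, Real.rpow_sub_one h.ne']
    field_simp

end Pool.Agent.Q98.FR
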